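import Pool.Agent.J6H96.CF.UNI
import Pool.Agent.J6H96.CF.Core

/-!
# Two-letter polynomial cubes in families given by unate conditions

Let `X_n = [n]^{d_1} ⊔ … ⊔ [n]^{d_s}`. We show that the two-letter polynomial density Hales-Jewett statement holds, for
all `s, d_1, …, d_s ≥ 1` and with explicit bounds, for all families `F` of the following kind and for all
families which contain a proportion of more than `1 - 2^{-s}` of such an `F`: for every fixed content of the
cells outside the `s n` diagonal cells `(i, …, i)`, membership in `F` depends only on the truth values of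
`κ` unate (for instance monotone, or linear threshold) conditions on the content of the diagonal cells.
-/

set_option autoImplicit false

namespace Pool.Agent.Results.MP_ecee09_co.UnateCombinations

open Finset

/-- The cells of `X_n = [n]^{d_1} ⊔ … ⊔ [n]^{d_s}`. -/
abbrev Cell {s : ℕ} (d : Fin s → ℕ) (n : ℕ) : Type := (r : Fin s) × (Fin (d r) → Fin n)

/-- `S^{(r)}`: the set `S^{d_r}` placed in the `r`-th part. -/
def block {s : ℕ} (d : Fin s → ℕ) {n : ℕ} (S : Finset (Fin n)) (r : Fin s) : Finset (Cell d n) :=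
  (Fintype.piFinset (fun _ : Fin (d r) => S)).map (Function.Embedding.sigmaMk r)

/-- The family `F` contains all `2^s` members of some two-letter polynomial cube. -/
def HasCube {s : ℕ} (d : Fin s → ℕ) {n : ℕ} (F : Finset (Finset (Cell d n))) : Prop :=
  ∃ (S : Finset (Fin n)) (A : Finset (Cell d n)), S.Nonempty ∧ (∀ r, Disjoint A (block d S r)) ∧
    ∀ T : Finset (Fin s), A ∪ T.biUnion (block d S) ∈ F

/-- The diagonal cells `(i, …, i)` of all parts. -/
def diagonal {s : ℕ} (d : Fin s → ℕ) (n : ℕ) : Finset (Cell d n) :=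
  univ.image (fun p : Fin s × Fin n => (⟨p.1, fun _ => p.2⟩ : Cell d n))

/-- `U` is unate on the subsets of `D`: for every `x ∈ D` adding `x` preserves `U`, or removing `x` does. -/
def Unate {E : Type} [DecidableEq E] (D : Finset E) (U : Finset E → Prop) : Prop :=
  ∀ x ∈ D, (∀ A, A ⊆ D → x ∉ A → U A → U (insert x A)) ∨
    (∀ A, A ⊆ D → x ∉ A → U (insert x A) → U A)

/-- For every content `C` of the cells outside `D` there are `κ` unate families `U_j` of subsets of `D` such that, for
`A ⊆ D`, the membership of `A ∪ C` in `F` depends only on the truth values of `U_j A`. -/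
def Combination {E : Type} [DecidableEq E] (D : Finset E) (κ : ℕ) (F : Finset (Finset E)) : Prop :=
  ∀ C : Finset E, Disjoint C D → ∃ U : Fin κ → Finset E → Prop, (∀ j, Unate D (U j)) ∧
    ∀ A B : Finset E, A ⊆ D → B ⊆ D → (∀ j, U j A ↔ U j B) → (A ∪ C ∈ F ↔ B ∪ C ∈ F)

section lemmas

variable {E : Type} [DecidableEq E]

open Classical in
/-- One fibre. -/
lemma fibre (B C : Finset E) (F S : Finset (Finset E)) (hS : ∃ T ⊆ B, T ∪ C ∉ S) :
    ∑ T ∈ B.powerset, (if T ∪ C ∈ F ∧ T ∪ C ∈ S then (1 : ℝ) else 0) ≤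
      (1 - 1 / 2 ^ B.card) * ∑ T ∈ B.powerset, (if T ∪ C ∈ F then (1 : ℝ) else 0) +
        ∑ x ∈ B, ∑ T ∈ B.powerset,
          (if x ∉ T ∧ ¬ (T ∪ C ∈ F ↔ insert x T ∪ C ∈ F) then (1 : ℝ) else 0) := by
  set f : ℝ := ∑ T ∈ B.powerset, (if T ∪ C ∈ F then (1 : ℝ) else 0) with hf
  set e : ℝ := ∑ x ∈ B, ∑ T ∈ B.powerset,
    (if x ∉ T ∧ ¬ (T ∪ C ∈ F ↔ insert x T ∪ C ∈ F) then (1 : ℝ) else 0) with he
  have he0 : 0 ≤ e := sum_nonneg fun x _ => sum_nonneg fun T _ => by split_ifs <;> norm_num
  have hpow : (0 : ℝ) < 2 ^ B.card := by positivity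
  have hgf : ∑ T ∈ B.powerset, (if T ∪ C ∈ F ∧ T ∪ C ∈ S then (1 : ℝ) else 0) ≤ f := by
    refine sum_le_sum fun T _ => ?_
    by_cases h1 : T ∪ C ∈ F <;> by_cases h2 : T ∪ C ∈ S <;> simp [h1, h2]
  have hf2 : f ≤ 2 ^ B.card := by
    rw [hf]
    calc ∑ T ∈ B.powerset, (if T ∪ C ∈ F then (1 : ℝ) else 0) ≤ ∑ T ∈ B.powerset, (1 : ℝ) :=
          sum_le_sum fun T _ => by split_ifs <;> norm_num
      _ = 2 ^ B.card := by simp [card_powerset]
  by_cases h : ∃ x ∈ B, ∃ T ⊆ B, x ∉ T ∧ ¬ (T ∪ C ∈ F ↔ insert x T ∪ C ∈ F)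
  · obtain ⟨x, hx, T, hT, hxT, hne⟩ := h
    have he1 : 1 ≤ e := by
      have h1 : (1 : ℝ) ≤ ∑ T ∈ B.powerset,
          (if x ∉ T ∧ ¬ (T ∪ C ∈ F ↔ insert x T ∪ C ∈ F) then (1 : ℝ) else 0) := by
        refine le_trans ?_ (single_le_sum (fun T _ => by split_ifs <;> norm_num)
          (mem_powerset.2 hT))
        rw [if_pos ⟨hxT, hne⟩]
      refine h1.trans ?_
      exact single_le_sum (f := fun x => ∑ T ∈ B.powerset,
          (if x ∉ T ∧ ¬ (T ∪ C ∈ F ↔ insert x T ∪ C ∈ F) then (1 : ℝ) else 0))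
        (fun y _ => sum_nonneg fun T _ => by split_ifs <;> norm_num) hx
    have h2 : 1 / 2 ^ B.card * f ≤ 1 := by
      rw [one_div_mul_eq_div, div_le_one hpow]
      exact hf2
    nlinarith
  · push Not at h
    have hconst : ∀ T, T ⊆ B → (T ∪ C ∈ F ↔ ∅ ∪ C ∈ F) := by
      intro T
      induction T using Finset.induction with
      | empty => exact fun _ => Iff.rfl
      | insert x T hxT ih =>
        intro hT
        have hT' : T ⊆ B := (subset_insert x T).trans hT
        rw [← ih hT']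
        exact (h x (hT (mem_insert_self x T)) T hT' hxT).symm
    by_cases hF : ∅ ∪ C ∈ F
    · have hf3 : f = 2 ^ B.card := by
        rw [hf, sum_congr rfl (fun T hT => if_pos ((hconst T (mem_powerset.1 hT)).2 hF))]
        simp [card_powerset]
      obtain ⟨T₀, hT₀, hT₀S⟩ := hS
      have hg : ∑ T ∈ B.powerset, (if T ∪ C ∈ F ∧ T ∪ C ∈ S then (1 : ℝ) else 0) ≤
          2 ^ B.card - 1 := by
        calc ∑ T ∈ B.powerset, (if T ∪ C ∈ F ∧ T ∪ C ∈ S then (1 : ℝ) else 0)
            ≤ ∑ T ∈ B.powerset, (1 - if T = T₀ then (1 : ℝ) else 0) := by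
              refine sum_le_sum fun T _ => ?_
              by_cases h1 : T = T₀
              · subst h1
                simp [hT₀S]
              · rw [if_neg h1]
                split_ifs <;> norm_num
          _ = 2 ^ B.card - 1 := by
              rw [sum_sub_distrib, sum_ite_eq' B.powerset T₀, if_pos (mem_powerset.2 hT₀)]
              simp [card_powerset]
      rw [hf3]
      have : (1 - 1 / 2 ^ B.card) * (2 : ℝ) ^ B.card = 2 ^ B.card - 1 := by
        field_simp
      rw [this]
      linarith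
    · have hf3 : f = 0 := by
        rw [hf]
        exact sum_eq_zero fun T hT => if_neg fun h' => hF ((hconst T (mem_powerset.1 hT)).1 h')
      rw [hf3] at hgf ⊢
      linarith

variable [Fintype E]

open Classical in
/-- One direction. -/
lemma direction (B : Finset E) (F S : Finset (Finset E))
    (hS : ∀ C, Disjoint C B → ∃ T ⊆ B, T ∪ C ∉ S) :
    ((F ∩ S).card : ℝ) ≤ (1 - 1 / 2 ^ B.card) * F.card +
      ∑ x ∈ B, ∑ A ∈ (univ : Finset E).powerset,
        (if x ∉ A ∧ ¬ (A ∈ F ↔ insert x A ∈ F) then (1 : ℝ) else 0) := by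
  have hBC : Disjoint B (univ \ B) := disjoint_sdiff
  have hu : B ∪ (univ \ B) = univ := union_sdiff_of_subset (subset_univ B)
  have key : ∀ g : Finset E → ℝ, ∑ A ∈ (univ : Finset E).powerset, g A =
      ∑ C ∈ (univ \ B).powerset, ∑ T ∈ B.powerset, g (T ∪ C) := by
    intro g
    rw [← Pool.Agent.J6H96.CF.sum_powerset_union hBC g, hu]
  have hcard : ∀ G : Finset (Finset E),
      (G.card : ℝ) = ∑ A ∈ (univ : Finset E).powerset, if A ∈ G then (1 : ℝ) else 0 := by
    intro G
    rw [sum_boole]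
    congr 2
    ext A
    simp
  rw [hcard (F ∩ S), hcard F, key, key]
  have h1 : ∀ x ∈ B, ∑ A ∈ (univ : Finset E).powerset,
      (if x ∉ A ∧ ¬ (A ∈ F ↔ insert x A ∈ F) then (1 : ℝ) else 0) =
      ∑ C ∈ (univ \ B).powerset, ∑ T ∈ B.powerset,
        (if x ∉ T ∧ ¬ (T ∪ C ∈ F ↔ insert x T ∪ C ∈ F) then (1 : ℝ) else 0) := by
    intro x hx
    rw [key]
    refine sum_congr rfl fun C hC => sum_congr rfl fun T _ => ?_
    have hxC : x ∉ C := fun h => (mem_sdiff.1 (mem_powerset.1 hC h)).2 hx
    rw [insert_union]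
    simp only [mem_union, hxC, or_false]
  rw [sum_congr rfl h1, sum_comm (s := B) (t := (univ \ B).powerset), mul_sum, ← sum_add_distrib]
  refine sum_le_sum fun C hC => ?_
  have hCB : Disjoint C B := by
    rw [disjoint_left]
    intro x hx hxB
    exact (mem_sdiff.1 (mem_powerset.1 hC hx)).2 hxB
  refine le_trans (le_of_eq (sum_congr rfl fun T _ => ?_)) (fibre B C F S (hS C hCB))
  simp only [mem_inter]

open Classical in
/-- The boundary of a combination of unate families. -/
lemma boundary (D : Finset E) (κ : ℕ) (F : Finset (Finset E)) (hF : Combination D κ F) :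
    ∑ x ∈ D, ∑ A ∈ (univ : Finset E).powerset,
      (if x ∉ A ∧ ¬ (A ∈ F ↔ insert x A ∈ F) then (1 : ℝ) else 0) ≤
        κ * √(D.card : ℝ) * 2 ^ Fintype.card E := by
  have hBC : Disjoint D (univ \ D) := disjoint_sdiff
  have hu : D ∪ (univ \ D) = univ := union_sdiff_of_subset (subset_univ D)
  have key : ∀ g : Finset E → ℝ, ∑ A ∈ (univ : Finset E).powerset, g A =
      ∑ C ∈ (univ \ D).powerset, ∑ T ∈ D.powerset, g (T ∪ C) := by
    intro g
    rw [← Pool.Agent.J6H96.CF.sum_powerset_union hBC g, hu]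
  have h1 : ∀ x ∈ D, ∑ A ∈ (univ : Finset E).powerset,
      (if x ∉ A ∧ ¬ (A ∈ F ↔ insert x A ∈ F) then (1 : ℝ) else 0) =
      ∑ C ∈ (univ \ D).powerset, ∑ T ∈ D.powerset,
        (if x ∉ T ∧ ¬ (T ∪ C ∈ F ↔ insert x T ∪ C ∈ F) then (1 : ℝ) else 0) := by
    intro x hx
    rw [key]
    refine sum_congr rfl fun C hC => sum_congr rfl fun T _ => ?_
    have hxC : x ∉ C := fun h => (mem_sdiff.1 (mem_powerset.1 hC h)).2 hx
    rw [insert_union]
    simp only [mem_union, hxC, or_false]
  rw [sum_congr rfl h1, sum_comm (s := D) (t := (univ \ D).powerset)]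
  have h2 : ∀ C ∈ (univ \ D).powerset, ∑ x ∈ D, ∑ T ∈ D.powerset,
      (if x ∉ T ∧ ¬ (T ∪ C ∈ F ↔ insert x T ∪ C ∈ F) then (1 : ℝ) else 0) ≤
        κ * (2 ^ D.card * √(D.card : ℝ)) := by
    intro C hC
    have hCD : Disjoint C D := by
      rw [disjoint_left]
      intro x hx hxB
      exact (mem_sdiff.1 (mem_powerset.1 hC hx)).2 hxB
    obtain ⟨U, hU, hUF⟩ := hF C hCD
    calc ∑ x ∈ D, ∑ T ∈ D.powerset,
          (if x ∉ T ∧ ¬ (T ∪ C ∈ F ↔ insert x T ∪ C ∈ F) then (1 : ℝ) else 0)
        ≤ ∑ x ∈ D, ∑ T ∈ D.powerset, ∑ j : Fin κ,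
          (if x ∉ T ∧ ¬ (U j T ↔ U j (insert x T)) then (1 : ℝ) else 0) := by
          refine sum_le_sum fun x hx => sum_le_sum fun T hT => ?_
          have hnn : ∀ j ∈ (univ : Finset (Fin κ)), (0 : ℝ) ≤
              (if x ∉ T ∧ ¬ (U j T ↔ U j (insert x T)) then (1 : ℝ) else 0) :=
            fun j _ => by split_ifs <;> norm_num
          split_ifs with h
          · by_contra hcon
            have h3 : ∀ j, U j T ↔ U j (insert x T) := by
              intro j
              by_contra h4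
              refine hcon (le_trans (le_of_eq ?_) (single_le_sum hnn (mem_univ j)))
              rw [if_pos ⟨h.1, h4⟩]
            exact h.2 (hUF T (insert x T) (mem_powerset.1 hT)
              (insert_subset hx (mem_powerset.1 hT)) h3)
          · exact sum_nonneg hnn
      _ = ∑ j : Fin κ, ∑ x ∈ D, ((D.powerset.filter fun T =>
            x ∉ T ∧ ¬ (U j T ↔ U j (insert x T))).card : ℝ) := by
          have e1 : ∀ x ∈ D, ∑ T ∈ D.powerset, ∑ j : Fin κ,
              (if x ∉ T ∧ ¬ (U j T ↔ U j (insert x T)) then (1 : ℝ) else 0) =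
              ∑ j : Fin κ, ((D.powerset.filter fun T =>
                x ∉ T ∧ ¬ (U j T ↔ U j (insert x T))).card : ℝ) := by
            intro x _
            rw [sum_comm]
            refine sum_congr rfl fun j _ => ?_
            rw [sum_boole]
          rw [sum_congr rfl e1, sum_comm]
      _ ≤ ∑ j : Fin κ, 2 ^ D.card * √(D.card : ℝ) :=
          sum_le_sum fun j _ => Pool.Agent.J6H96.CF.t_UNI E D (U j) (hU j) D Subset.rfl
      _ = κ * (2 ^ D.card * √(D.card : ℝ)) := by
          rw [sum_const, card_univ, Fintype.card_fin, nsmul_eq_mul]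
  refine (sum_le_sum h2).trans (le_of_eq ?_)
  rw [sum_const, card_powerset, nsmul_eq_mul]
  have h3 : Fintype.card E = (univ \ D).card + D.card := by
    rw [card_sdiff_add_card_eq_card (subset_univ D), card_univ]
  rw [h3, pow_add]
  push_cast
  ring

end lemmas

/-- Let `s ≥ 1`, `d_1, …, d_s ≥ 1` and `n ≥ 1`. If `S` contains no complete two-letter polynomial cube and `F` is,
for every content of the other cells, a combination of `κ` unate families in the diagonal cells, then
`|F ∩ S| ≤ (1 - 2^{-s}) |F| + κ √(s / n) 2^|X_n|`. -/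
theorem result (s : ℕ) (hs : 1 ≤ s) (d : Fin s → ℕ) (hd : ∀ r, 1 ≤ d r) (n : ℕ) (hn : 1 ≤ n) (κ : ℕ)
    (F S : Finset (Finset (Cell d n))) (hF : Combination (diagonal d n) κ F) (hS : ¬ HasCube d S) :
    ((F ∩ S).card : ℝ) ≤ (1 - 1 / 2 ^ s) * (F.card : ℝ) +
      κ * √((s : ℝ) / n) * 2 ^ Fintype.card (Cell d n) := by
  classical
  let x : Fin n → Fin s → Cell d n := fun i r => ⟨r, fun _ => i⟩
  let B : Fin n → Finset (Cell d n) := fun i => univ.image (x i)
  have hxi : ∀ i, Function.Injective (x i) := fun i r r' h => congrArg Sigma.fst h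
  have hx2 : ∀ i j r r', x i r = x j r' → i = j ∧ r = r' := by
    intro i j r r' h
    have h1 : r = r' := congrArg Sigma.fst h
    subst h1
    have h2 : (fun _ : Fin (d r) => i) = fun _ => j := eq_of_heq (Sigma.mk.inj h).2
    exact ⟨congrFun h2 ⟨0, hd r⟩, rfl⟩
  have hBc : ∀ i, (B i).card = s := by
    intro i
    rw [card_image_of_injective _ (hxi i), card_univ, Fintype.card_fin]
  have hblock : ∀ i r, block d {i} r = {x i r} := by
    intro i r
    ext y
    simp only [block, mem_map, Fintype.mem_piFinset, mem_singleton, x]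
    constructor
    · rintro ⟨f, hf, rfl⟩
      rw [show f = fun _ => i from funext hf]
      rfl
    · rintro rfl
      exact ⟨fun _ => i, fun _ => rfl, rfl⟩
  have h1 : ∀ i, ((F ∩ S).card : ℝ) ≤ (1 - 1 / 2 ^ s) * F.card +
      ∑ y ∈ B i, ∑ A ∈ (univ : Finset (Cell d n)).powerset,
        (if y ∉ A ∧ ¬ (A ∈ F ↔ insert y A ∈ F) then (1 : ℝ) else 0) := by
    intro i
    have := direction (B i) F S (by
      intro C hC
      by_contra hcon
      push Not at hcon
      refine hS ⟨{i}, C, singleton_nonempty i, ?_, ?_⟩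
      · intro r
        rw [hblock, disjoint_singleton_right]
        intro h
        exact disjoint_left.1 hC h (mem_image_of_mem _ (mem_univ r))
      · intro T
        have hT : T.biUnion (block d {i}) = T.image (x i) := by
          ext y
          simp only [mem_biUnion, hblock, mem_singleton, mem_image]
          exact ⟨fun ⟨r, hr, h⟩ => ⟨r, hr, h.symm⟩, fun ⟨r, hr, h⟩ => ⟨r, hr, h.symm⟩⟩
        rw [hT, union_comm]
        exact hcon _ (image_subset_image (subset_univ T)))
    rw [hBc i] at this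
    exact this
  have hD : diagonal d n = univ.biUnion B := by
    ext y
    simp only [diagonal, mem_image, mem_univ, true_and, mem_biUnion, B, x, Prod.exists]
    exact ⟨fun ⟨r, i, h⟩ => ⟨i, r, h⟩, fun ⟨i, r, h⟩ => ⟨r, i, h⟩⟩
  have hdis : ∀ i ∈ (univ : Finset (Fin n)), ∀ j ∈ (univ : Finset (Fin n)), i ≠ j →
      Disjoint (B i) (B j) := by
    intro i _ j _ hij
    rw [disjoint_left]
    intro y hy hy'
    obtain ⟨r, -, rfl⟩ := mem_image.1 hy
    obtain ⟨r', -, h⟩ := mem_image.1 hy'
    exact hij ((hx2 _ _ _ _ h).1).symm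
  have hDc : (diagonal d n).card = n * s := by
    rw [hD, card_biUnion hdis, sum_congr rfl (fun i _ => hBc i), sum_const, card_univ,
      Fintype.card_fin, smul_eq_mul]
  have h2 := sum_le_sum (s := (univ : Finset (Fin n))) fun i _ => h1 i
  rw [sum_const, sum_add_distrib, sum_const, card_univ, Fintype.card_fin, nsmul_eq_mul,
    nsmul_eq_mul, ← sum_biUnion hdis, ← hD] at h2
  have h3 := h2.trans (add_le_add_right (boundary (diagonal d n) κ F hF) _)
  rw [hDc] at h3
  have hn0 : (0 : ℝ) < n := by exact_mod_cast hn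
  have h4 : √((n * s : ℕ) : ℝ) = n * √((s : ℝ) / n) := by
    push_cast
    rw [show (n : ℝ) * s = (n : ℝ) ^ 2 * (s / n) by field_simp, Real.sqrt_mul (by positivity),
      Real.sqrt_sq hn0.le]
  rw [h4] at h3
  have h5 : (n : ℝ) * ((F ∩ S).card : ℝ) ≤ n * ((1 - 1 / 2 ^ s) * (F.card : ℝ) +
      κ * √((s : ℝ) / n) * 2 ^ Fintype.card (Cell d n)) := by
    refine h3.trans (le_of_eq ?_)
    ring
  exact le_of_mul_le_mul_left h5 hn0

end Pool.Agent.Results.MP_ecee09_co.UnateCombinations
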